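import Pool.Agent.helper61.Y2.Spec

/-!
# Row y2:CNT (MP_752b23_lc): number of small subsets
-/

set_option autoImplicit false

namespace H61.Y2

open H61.Yorioka Cardinal

theorem CNT : CNT_stmt := by
  intro α _ B n
  induction n with
  | zero =>
    rw [pow_zero]
    apply Finset.card_le_one.mpr
    intro a ha b hb
    rw [Finset.mem_filter] at ha hb
    rw [Finset.card_eq_zero.mp (Nat.le_zero.mp ha.2), Finset.card_eq_zero.mp (Nat.le_zero.mp hb.2)]
  | succ n ih =>
    let F : Option α × Finset α → Finset α := fun x => x.1.elim x.2 (fun b => insert b x.2)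
    have hsub : B.powerset.filter (fun s => s.card ≤ n + 1) ⊆
        ((Finset.insertNone B) ×ˢ (B.powerset.filter (fun s => s.card ≤ n))).image F := by
      intro s hs
      rw [Finset.mem_filter, Finset.mem_powerset] at hs
      obtain ⟨hsB, hsn⟩ := hs
      rw [Finset.mem_image]
      rcases s.eq_empty_or_nonempty with h | ⟨b, hb⟩
      · refine ⟨(none, ∅), ?_, ?_⟩
        · rw [Finset.mem_product]
          refine ⟨by simp, ?_⟩
          rw [Finset.mem_filter, Finset.mem_powerset]
          exact ⟨Finset.empty_subset _, by simp⟩
        · rw [h]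
          rfl
      · refine ⟨(some b, s.erase b), ?_, ?_⟩
        · rw [Finset.mem_product]
          refine ⟨by simpa using hsB hb, ?_⟩
          rw [Finset.mem_filter, Finset.mem_powerset]
          refine ⟨(Finset.erase_subset _ _).trans hsB, ?_⟩
          rw [Finset.card_erase_of_mem hb]
          omega
        · show insert b (s.erase b) = s
          exact Finset.insert_erase hb
    calc (B.powerset.filter (fun s => s.card ≤ n + 1)).card
        ≤ (((Finset.insertNone B) ×ˢ (B.powerset.filter (fun s => s.card ≤ n))).image F).card := Finset.card_le_card hsub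
      _ ≤ ((Finset.insertNone B) ×ˢ (B.powerset.filter (fun s => s.card ≤ n))).card := Finset.card_image_le
      _ = (B.card + 1) * (B.powerset.filter (fun s => s.card ≤ n)).card := by
          rw [Finset.card_product, Finset.card_insertNone]
      _ ≤ (B.card + 1) * (B.card + 1) ^ n := Nat.mul_le_mul_left _ ih
      _ = (B.card + 1) ^ (n + 1) := by rw [pow_succ]; ring

end H61.Y2
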