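import Pool.Agent.helper61.Y2.Spec

/-!
# Row y2:COR (MP_752b23_lc): the core
-/

set_option autoImplicit false

namespace H61.Y2

open H61.Yorioka Cardinal

theorem COR_chain (Q : ℕ → List Bool) (h : ∀ i, Q i <+: Q (i + 1)) : ∀ i j, i ≤ j → Q i <+: Q j := by
  intro i j hij
  induction j, hij using Nat.le_induction with
  | base => exact List.prefix_rfl
  | succ j _ ih => exact ih.trans (h j)

theorem COR_len (Q : ℕ → List Bool) (hl : ∀ i, (Q i).length < (Q (i + 1)).length) : ∀ i, i ≤ (Q i).length := by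
  intro i
  induction i with
  | zero => exact Nat.zero_le _
  | succ i ih =>
    have := hl i
    omega

theorem COR_init (Q : ℕ → List Bool) (h : ∀ i, Q i <+: Q (i + 1)) (hl : ∀ i, (Q i).length < (Q (i + 1)).length) :
    ∀ i, IsInit (Q i) (fun n => (Q (n + 1)).getD n false) := by
  intro i m hm
  have hlm : m < (Q (m + 1)).length := by
    have := COR_len Q hl (m + 1)
    omega
  show (Q i)[m] = (Q (m + 1)).getD m false
  have h1 : (Q (m + 1)).getD m false = (Q (m + 1))[m] := by
    rw [List.getD_eq_getElem _ _ hlm]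
  rw [h1]
  rcases le_total i (m + 1) with hi | hi
  · obtain ⟨u, hu⟩ := COR_chain Q h i (m + 1) hi
    have h2 : (Q (m + 1))[m]? = (Q i)[m]? := by
      rw [← hu, List.getElem?_append_left hm]
    rw [List.getElem?_eq_getElem hlm, List.getElem?_eq_getElem hm] at h2
    exact (Option.some.inj h2).symm
  · obtain ⟨u, hu⟩ := COR_chain Q h (m + 1) i hi
    have h2 : (Q i)[m]? = (Q (m + 1))[m]? := by
      rw [← hu, List.getElem?_append_left hlm]
    rw [List.getElem?_eq_getElem hlm, List.getElem?_eq_getElem hm] at h2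
    exact Option.some.inj h2

theorem COR : COR_stmt := by
  intro T Φ hq hLS
  by_contra hcon
  push Not at hcon
  have hstep : ∀ q : {q : List Bool // Good T q}, ∃ q' : {q : List Bool // Good T q},
      (∃ l s, ∃ p : List Bool, (l, s) ∈ Φ ∧ p.length = l ∧ q'.1 = p ++ s) ∧ q.1 <+: q'.1 ∧ q.1.length < q'.1.length ∧
      ∀ t ∈ T, q.1.length < t.length → ¬ t <+: q'.1 := by
    intro q
    obtain ⟨l, s, h1, h2, p, h3, h4, h5, h6⟩ := hcon q.1 (q.1.length + 1) q.2
    refine ⟨⟨p ++ s, h5⟩, ⟨l, s, p, h1, h3, rfl⟩, h4.trans (List.prefix_append p s), ?_, h6⟩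
    show q.1.length < (p ++ s).length
    rw [List.length_append, h3]
    omega
  choose nx hnx using hstep
  obtain ⟨q0, hq0⟩ := hq
  let Q : ℕ → {q : List Bool // Good T q} := fun i => Nat.rec ⟨q0, hq0⟩ (fun _ q => nx q) i
  have hQs : ∀ i, Q (i + 1) = nx (Q i) := fun i => rfl
  have hpre : ∀ i, (Q i).1 <+: (Q (i + 1)).1 := fun i => (hnx (Q i)).2.1
  have hlen : ∀ i, (Q i).1.length < (Q (i + 1)).1.length := fun i => (hnx (Q i)).2.2.1
  set x : ℕ → Bool := fun n => (Q (n + 1)).1.getD n false with hx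
  have hinit : ∀ i, IsInit (Q i).1 x := COR_init (fun i => (Q i).1) hpre hlen
  have hmono : StrictMono (fun i => (Q i).1.length) := strictMono_nat_of_lt_succ hlen
  have hxA : x ∈ LS {t | ∃ l s, ∃ p : List Bool, (l, s) ∈ Φ ∧ p.length = l ∧ t = p ++ s} := by
    refine Set.infinite_of_injective_forall_mem (f := fun i : ℕ => (Q (i + 1)).1) ?_ ?_
    · intro i j hij
      have h1 : (Q (i + 1)).1.length = (Q (j + 1)).1.length := congrArg List.length hij
      have h2 : i + 1 = j + 1 := hmono.injective h1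
      omega
    · intro i
      exact ⟨(hnx (Q i)).1, hinit (i + 1)⟩
  have hxT : x ∈ LS T := hLS hxA
  refine hxT ?_
  have hsub : {t | t ∈ T ∧ IsInit t x} ⊆ (fun n => res x n) '' (↑(Finset.range ((Q 0).1.length + 1)) : Set ℕ) := by
    rintro t ⟨htT, htx⟩
    refine ⟨t.length, ?_, (isInit_iff.mp htx).symm⟩
    rw [Finset.coe_range, Set.mem_Iio]
    by_contra hlt
    push Not at hlt
    have hex : ∃ i, t.length ≤ (Q i).1.length := ⟨t.length, COR_len (fun i => (Q i).1) hlen _⟩
    classical
    have hfs := Nat.find_spec hex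
    have hmin : ∀ m < Nat.find hex, ¬ t.length ≤ (Q m).1.length := fun m hm => Nat.find_min hex hm
    have hpos : Nat.find hex ≠ 0 := by
      intro h0
      rw [h0] at hfs
      omega
    obtain ⟨i, hi⟩ := Nat.exists_eq_succ_of_ne_zero hpos
    have h1 := hmin i (by omega)
    rw [hi] at hfs
    exact (hnx (Q i)).2.2.2 t htT (by omega) (htx.comparable (hinit (i + 1)) hfs)
  exact ((Finset.finite_toSet _).image _).subset hsub

end H61.Y2
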